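import Pool.Agent.ABY.Stmts

/-! Tank ABY, row VBL: the pair in the flow of a block. -/

set_option autoImplicit false

open scoped BigOperators Matrix

noncomputable section

namespace Pool.Agent.ABY.H41

open Pool.Agent.LE.QF Pool.Agent.AFJ

theorem vbl : VblStmt := by
  intro JAL JMA BKJ ENB CMP VEX TSP VJT VGR VDR c₀ C₀
  obtain ⟨C₁, hC₁, H1⟩ := VGR CMP VEX TSP c₀ C₀
  obtain ⟨C₂, hC₂, H2⟩ := VDR CMP VEX TSP VGR ENB c₀ C₀
  refine ⟨C₁ + C₂, by linarith, ?_⟩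
  intro X _ _ b q Gm kf G κ mb Pf P w g U R κv μs Λ hBJ hPf hY a ha
  obtain ⟨hB, hK, -⟩ := BKJ JAL X b q Gm kf G κ mb hBJ
  obtain ⟨cB, cK, -, gB, gK⟩ := H1 X G κ P w g (mub G mb b) b U R κv μs Λ hY
  obtain ⟨dB', dK'⟩ := H2 X G κ P w g (mub G mb b) b U R κv μs Λ hY a ha
  obtain ⟨-, -, -, hκv, -, hμs, hΛ⟩ := hY.hc
  have hs : 0 ≤ Real.sqrt (Λ / κv) := Real.sqrt_nonneg _
  have ht : 0 ≤ μs / κv + Real.sqrt (Real.sqrt (Λ / κv)) / Real.sqrt κv := by positivity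
  have uB := (VEX CMP ℂ X (BB G) (KK G) P g U R (3 / 4) cB).1
  have uK := (VEX CMP ℝ X (KK G) (KK G) P g U R (3 / 4) cK).1
  have jB := VJT JAL JMA ℂ X b q (fun r => BB (Gm r)) (BB G) (EB G (mub G mb b))
    (fun c => dB G (c : X)) Pf P w hB hPf uB a
  have jK := VJT JAL JMA ℝ X b q (fun r => KK (Gm r)) (KK G) (EK G (mub G mb b))
    (fun c => dK G (c : X)) Pf P w hK hPf uK a
  refine ⟨⟨_, _, jB, ?_, ?_⟩, _, _, jK, ?_, ?_⟩
  · rw [Finset.sum_coe_sort b (fun c => ‖(TT (BB G) P *ᵥ (dB G c *ᵥ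
      psi P w (vir (BB G) P w))) a‖ ^ 2)]
    refine (gB a ha).trans ?_
    nlinarith
  · rw [Finset.sum_coe_sort b (fun c => (TT (BB G) P *ᵥ (dB G c *ᵥ (dg ℂ P *ᵥ
      (TT (BB G) P *ᵥ (dB G c *ᵥ psi P w (vir (BB G) P w)))))) a)]
    refine dB'.trans ?_
    nlinarith
  · rw [Finset.sum_coe_sort b (fun c => ((TT (KK G) P *ᵥ (dK G c *ᵥ
      psi P w (vir (KK G) P w))) a) ^ 2)]
    refine (gK a ha).trans ?_
    nlinarith
  · rw [Finset.sum_coe_sort b (fun c => (TT (KK G) P *ᵥ (dK G c *ᵥ (dg ℝ P *ᵥ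
      (TT (KK G) P *ᵥ (dK G c *ᵥ psi P w (vir (KK G) P w)))))) a)]
    refine dK'.trans ?_
    nlinarith

end Pool.Agent.ABY.H41
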