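import Pool.Agent.ABY.Stmts

/-! Tank ABY, row VDR: the drift of the virtual vector in the flow of a block. -/

set_option autoImplicit false

open scoped BigOperators Matrix

noncomputable section

namespace Pool.Agent.ABY.H41

open Pool.Agent.LE.QF Pool.Agent.AFJ

/-- weighted Cauchy-Schwarz -/
lemma wcs {X : Type} (s : Finset X) (κ a b : X → ℝ) (hκ : ∀ x, 0 ≤ κ x) :
    (∑ x ∈ s, κ x * (a x * b x)) ^ 2 ≤
      (∑ x ∈ s, κ x * a x ^ 2) * (∑ x ∈ s, κ x * b x ^ 2) := by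
  refine Finset.sum_sq_le_sum_mul_sum_of_sq_eq_mul s (fun x _ => ?_) (fun x _ => ?_)
    (fun x _ => ?_)
  · exact mul_nonneg (hκ x) (sq_nonneg _)
  · exact mul_nonneg (hκ x) (sq_nonneg _)
  · ring

/-- the first term at a point -/
lemma vdr_1 {𝕜 : Type} [RCLike 𝕜] {X : Type} [Fintype X] (E : X → 𝕜) (G D κ : X → ℝ) (ψ : X → 𝕜)
    (r e : ℝ) (hκ : ∀ x, 0 ≤ κ x) (hr : 0 ≤ r) (he : 0 ≤ e) (hG0 : ∀ y, 0 ≤ G y)
    (hD0 : ∀ y, 0 ≤ D y) (hG : ∑ y, κ y * G y ^ 2 ≤ r) (hD : ∑ y, κ y * D y ^ 2 ≤ e ^ 2 * r)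
    (hE : ∀ y, ‖E y‖ ≤ 2 * (G y * D y)) (hψ : ∀ y, ‖ψ y‖ ≤ 4 * κ y) :
    ‖∑ y, E y * ψ y‖ ≤ 8 * r * e := by
  have h1 : ‖∑ y, E y * ψ y‖ ≤ 8 * ∑ y, κ y * (G y * D y) := by
    refine (norm_sum_le _ _).trans ?_
    rw [Finset.mul_sum]
    refine Finset.sum_le_sum fun y _ => ?_
    rw [norm_mul]
    calc ‖E y‖ * ‖ψ y‖ ≤ 2 * (G y * D y) * (4 * κ y) :=
          mul_le_mul (hE y) (hψ y) (norm_nonneg _)
            (mul_nonneg (by norm_num) (mul_nonneg (hG0 y) (hD0 y)))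
      _ = 8 * (κ y * (G y * D y)) := by ring
  have h2 : ∑ y, κ y * (G y * D y) ≤ r * e := by
    refine le_of_sq_le_sq ?_ (by positivity)
    refine (wcs _ κ G D hκ).trans ?_
    calc (∑ y, κ y * G y ^ 2) * ∑ y, κ y * D y ^ 2 ≤ r * (e ^ 2 * r) :=
          mul_le_mul hG hD (Finset.sum_nonneg fun y _ => mul_nonneg (hκ y) (sq_nonneg _)) hr
      _ = (r * e) ^ 2 := by ring
  linarith

/-- the second term at a point -/
lemma vdr_2 {𝕜 : Type} [RCLike 𝕜] {X : Type} [Fintype X] [DecidableEq X]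
    (D : X → X → 𝕜) (Gz : X → ℝ) (Gc : X → X → ℝ) (κ P : X → ℝ) (f : X → X → 𝕜) (b U : Finset X)
    (r κv c₀ V : ℝ) (hκ : ∀ x, 0 ≤ κ x) (hr : 1 ≤ r) (hκv : 0 < κv) (hc₀ : 0 < c₀) (hV : 0 ≤ V)
    (hGz0 : ∀ y, 0 ≤ Gz y) (hGc0 : ∀ c y, 0 ≤ Gc c y) (hP0 : ∀ y, 0 ≤ P y)
    (hPU : ∀ y, y ∉ U → P y = 0) (hP : ∀ y ∈ U, 2 * (P y * c₀) ≤ κ y)
    (hv : ∀ c ∈ b, κv ≤ κ c)
    (hGz : ∑ y, κ y * Gz y ^ 2 ≤ r) (hGc : ∀ c ∈ b, ∑ y, κ y * Gc c y ^ 2 ≤ r)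
    (hf : ∀ y ∈ U, ∑ c ∈ b, ‖f c y‖ ^ 2 ≤ V ^ 2)
    (hD : ∀ c y, ‖D c y‖ ≤ 2 * (Gz y * (Gz c * Gc c y))) :
    ‖∑ c ∈ b, ∑ y, D c y * (((P y : ℝ) : 𝕜) * f c y)‖ ≤ V / c₀ * (r ^ 2 / Real.sqrt κv) := by
  let t : X → ℝ := fun y => Real.sqrt (∑ c ∈ b, (Gz c * Gc c y) ^ 2)
  have ht0 : ∀ y, 0 ≤ t y := fun y => Real.sqrt_nonneg _
  have ht : ∀ y, t y ^ 2 = ∑ c ∈ b, (Gz c * Gc c y) ^ 2 := fun y =>
    Real.sq_sqrt (Finset.sum_nonneg fun c _ => sq_nonneg _)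
  -- the sum over the block
  have h1 : ∀ y, ∑ c ∈ b, ‖D c y * (((P y : ℝ) : 𝕜) * f c y)‖ ≤
      V / c₀ * (κ y * (Gz y * t y)) := by
    intro y
    by_cases hy : y ∈ U
    · have e1 : ∑ c ∈ b, Gz c * Gc c y * ‖f c y‖ ≤ t y * V := by
        refine le_of_sq_le_sq ?_ (mul_nonneg (ht0 y) hV)
        refine (Finset.sum_mul_sq_le_sq_mul_sq b (fun c => Gz c * Gc c y)
          (fun c => ‖f c y‖)).trans ?_
        rw [mul_pow, ht]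
        exact mul_le_mul_of_nonneg_left (hf y hy) (Finset.sum_nonneg fun c _ => sq_nonneg _)
      have e2 : ∑ c ∈ b, ‖D c y * (((P y : ℝ) : 𝕜) * f c y)‖ ≤
          2 * P y * Gz y * ∑ c ∈ b, Gz c * Gc c y * ‖f c y‖ := by
        rw [Finset.mul_sum]
        refine Finset.sum_le_sum fun c _ => ?_
        rw [norm_mul, norm_mul, RCLike.norm_ofReal, abs_of_nonneg (hP0 y)]
        calc ‖D c y‖ * (P y * ‖f c y‖) ≤ 2 * (Gz y * (Gz c * Gc c y)) * (P y * ‖f c y‖) :=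
              mul_le_mul_of_nonneg_right (hD c y) (mul_nonneg (hP0 y) (norm_nonneg _))
          _ = 2 * P y * Gz y * (Gz c * Gc c y * ‖f c y‖) := by ring
      have e3 : 2 * P y ≤ κ y / c₀ := by
        rw [le_div_iff₀ hc₀]
        have := hP y hy
        linarith
      calc ∑ c ∈ b, ‖D c y * (((P y : ℝ) : 𝕜) * f c y)‖
          ≤ 2 * P y * Gz y * ∑ c ∈ b, Gz c * Gc c y * ‖f c y‖ := e2
        _ ≤ 2 * P y * Gz y * (t y * V) := by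
            refine mul_le_mul_of_nonneg_left e1 ?_
            exact mul_nonneg (mul_nonneg (by norm_num) (hP0 y)) (hGz0 y)
        _ ≤ κ y / c₀ * Gz y * (t y * V) := by
            refine mul_le_mul_of_nonneg_right ?_ (mul_nonneg (ht0 y) hV)
            exact mul_le_mul_of_nonneg_right e3 (hGz0 y)
        _ = V / c₀ * (κ y * (Gz y * t y)) := by ring
    · rw [Finset.sum_eq_zero]
      · exact mul_nonneg (div_nonneg hV hc₀.le) (mul_nonneg (hκ y) (mul_nonneg (hGz0 y) (ht0 y)))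
      · intro c _
        rw [hPU y hy]
        simp
  -- the sum over the sites
  have h2 : ∑ y, κ y * t y ^ 2 ≤ r * (r / κv) := by
    have e1 : ∑ y, κ y * t y ^ 2 = ∑ c ∈ b, Gz c ^ 2 * ∑ y, κ y * Gc c y ^ 2 := by
      simp only [ht, Finset.mul_sum]
      rw [Finset.sum_comm]
      refine Finset.sum_congr rfl fun c _ => Finset.sum_congr rfl fun y _ => ?_
      ring
    have e2 : ∑ c ∈ b, Gz c ^ 2 ≤ r / κv := by
      rw [le_div_iff₀ hκv, Finset.sum_mul]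
      calc ∑ c ∈ b, Gz c ^ 2 * κv ≤ ∑ c ∈ b, κ c * Gz c ^ 2 := by
            refine Finset.sum_le_sum fun c hc => ?_
            rw [mul_comm]
            exact mul_le_mul_of_nonneg_right (hv c hc) (sq_nonneg _)
        _ ≤ ∑ c, κ c * Gz c ^ 2 :=
            Finset.sum_le_sum_of_subset_of_nonneg (Finset.subset_univ _)
              fun c _ _ => mul_nonneg (hκ c) (sq_nonneg _)
        _ ≤ r := hGz
    rw [e1]
    calc ∑ c ∈ b, Gz c ^ 2 * ∑ y, κ y * Gc c y ^ 2 ≤ ∑ c ∈ b, Gz c ^ 2 * r :=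
          Finset.sum_le_sum fun c hc => mul_le_mul_of_nonneg_left (hGc c hc) (sq_nonneg _)
      _ = r * ∑ c ∈ b, Gz c ^ 2 := by rw [← Finset.sum_mul, mul_comm]
      _ ≤ r * (r / κv) := mul_le_mul_of_nonneg_left e2 (by linarith)
  have hsq : 0 < Real.sqrt κv := Real.sqrt_pos.2 hκv
  have h3 : ∑ y, κ y * (Gz y * t y) ≤ r ^ 2 / Real.sqrt κv := by
    refine le_of_sq_le_sq ?_ (by positivity)
    refine (wcs _ κ Gz t hκ).trans ?_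
    calc (∑ y, κ y * Gz y ^ 2) * ∑ y, κ y * t y ^ 2 ≤ r * (r * (r / κv)) :=
          mul_le_mul hGz h2 (Finset.sum_nonneg fun y _ => mul_nonneg (hκ y) (sq_nonneg _))
            (by linarith)
      _ ≤ (r ^ 2 / Real.sqrt κv) ^ 2 := by
          rw [div_pow, Real.sq_sqrt hκv.le, ← mul_div_assoc, ← mul_div_assoc]
          refine div_le_div_of_nonneg_right ?_ hκv.le
          have : (r ^ 2) ^ 2 - r * (r * r) = r ^ 3 * (r - 1) := by ring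
          have h4 : 0 ≤ r ^ 3 * (r - 1) := mul_nonneg (by positivity) (by linarith)
          linarith
  calc ‖∑ c ∈ b, ∑ y, D c y * (((P y : ℝ) : 𝕜) * f c y)‖
      ≤ ∑ c ∈ b, ∑ y, ‖D c y * (((P y : ℝ) : 𝕜) * f c y)‖ :=
        (norm_sum_le _ _).trans (Finset.sum_le_sum fun c _ => norm_sum_le _ _)
    _ = ∑ y, ∑ c ∈ b, ‖D c y * (((P y : ℝ) : 𝕜) * f c y)‖ := Finset.sum_comm
    _ ≤ ∑ y, V / c₀ * (κ y * (Gz y * t y)) := Finset.sum_le_sum fun y _ => h1 y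
    _ = V / c₀ * ∑ y, κ y * (Gz y * t y) := by rw [Finset.mul_sum]
    _ ≤ V / c₀ * (r ^ 2 / Real.sqrt κv) :=
        mul_le_mul_of_nonneg_left h3 (div_nonneg hV hc₀.le)

/-- the drift for one of the two matrices -/
lemma vdr_core (CMP : CmpStmt) (VEX : VexStmt) {𝕜 : Type} [RCLike 𝕜] {X : Type} [Fintype X]
    [DecidableEq X] (M E : Matrix X X 𝕜) (D : X → Matrix X X 𝕜) (G : Matrix X X ℂ)
    (μ : X → ℂ) (κ P w g : X → ℝ) (b U R : Finset X) (ψ : X → 𝕜) (c₀ C₀ κv μs Λ e V : ℝ)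
    (hY : YBl G κ P w g μ b U R c₀ C₀ κv μs Λ) (he : 0 ≤ e) (hV : 0 ≤ V)
    (hc : Cmp M (KK G) P g U R (3 / 4)) (hK : ∀ x ∈ R, ∑ y, κ y * ‖G x y‖ ^ 2 ≤ 3 / 2 * C₀)
    (hGD : ∀ z ∈ R, ∑ y, κ y * ‖GD G μ z y‖ ^ 2 ≤ e ^ 2 * (3 / 2 * C₀))
    (hE : ∀ z y, ‖E z y‖ ≤ 2 * (‖G z y‖ * ‖GD G μ z y‖))
    (hD : ∀ c z y, ‖D c z y‖ ≤ 2 * (‖G z y‖ * (‖G z c‖ * ‖G c y‖)))
    (hψ : ∀ y, ‖ψ y‖ ≤ 4 * κ y)
    (hgr : ∀ a ∈ R, ∑ c ∈ b, ‖(TT M P *ᵥ (D c *ᵥ ψ)) a‖ ^ 2 ≤ V ^ 2) (a : X) (ha : a ∈ R) :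
    ‖(TT M P *ᵥ (E *ᵥ ψ)) a +
      ∑ c ∈ b, (TT M P *ᵥ (D c *ᵥ (dg 𝕜 P *ᵥ (TT M P *ᵥ (D c *ᵥ ψ))))) a‖ ≤
      48 * (C₀ ^ 2 / c₀) * e + 9 * (C₀ ^ 3 / c₀ ^ 2) * (V / Real.sqrt κv) := by
  obtain ⟨hc₀, -, hC₀, hκv, -, -, -⟩ := hY.hc
  obtain ⟨hbU, hUR⟩ := hY.hb
  obtain ⟨hP0, hPU, hPg⟩ := hY.hP
  have hκ : ∀ x, 0 ≤ κ x := fun x => (hY.net.hκ x).le
  have hT := (VEX CMP 𝕜 X M (KK G) P g U R (3 / 4) hc).2.2.2.1
  have hga := (hY.hg a ha).2.1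
  have hg0 : ∀ z ∈ R, c₀ ≤ g z := fun z hz => (hY.hg z hz).1
  have hsq : 0 < Real.sqrt κv := Real.sqrt_pos.2 hκv
  have hC0 : 0 < C₀ := by linarith
  -- the first term
  have t1 : ‖(TT M P *ᵥ (E *ᵥ ψ)) a‖ ≤ 48 * (C₀ ^ 2 / c₀) * e := by
    have h1 : ∀ z ∈ R, ‖(E *ᵥ ψ) z‖ ≤ 12 * C₀ * e / c₀ * g z := by
      intro z hz
      have h2 := vdr_1 (fun y => E z y) (fun y => ‖G z y‖) (fun y => ‖GD G μ z y‖) κ ψ
        (3 / 2 * C₀) e hκ (by positivity) he (fun y => norm_nonneg _) (fun y => norm_nonneg _)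
        (hK z hz) (hGD z hz) (fun y => hE z y) hψ
      calc ‖(E *ᵥ ψ) z‖ ≤ 8 * (3 / 2 * C₀) * e := h2
        _ = 12 * C₀ * e / c₀ * c₀ := by field_simp; ring
        _ ≤ 12 * C₀ * e / c₀ * g z :=
            mul_le_mul_of_nonneg_left (hg0 z hz) (by positivity)
    have h3 := hT (E *ᵥ ψ) (12 * C₀ * e / c₀) (by positivity) h1 a ha
    calc ‖(TT M P *ᵥ (E *ᵥ ψ)) a‖ ≤ 12 * C₀ * e / c₀ / (1 - 3 / 4) * g a := h3
      _ ≤ 12 * C₀ * e / c₀ / (1 - 3 / 4) * C₀ := by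
          refine mul_le_mul_of_nonneg_left hga ?_
          have : (0 : ℝ) < 1 - 3 / 4 := by norm_num
          positivity
      _ = 48 * (C₀ ^ 2 / c₀) * e := by field_simp; ring
  -- the second term
  let h : X → 𝕜 := ∑ c ∈ b, D c *ᵥ (dg 𝕜 P *ᵥ (TT M P *ᵥ (D c *ᵥ ψ)))
  have hh : ∑ c ∈ b, (TT M P *ᵥ (D c *ᵥ (dg 𝕜 P *ᵥ (TT M P *ᵥ (D c *ᵥ ψ))))) a =
      (TT M P *ᵥ h) a := by
    show _ = (TT M P *ᵥ ∑ c ∈ b, D c *ᵥ (dg 𝕜 P *ᵥ (TT M P *ᵥ (D c *ᵥ ψ)))) a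
    rw [Matrix.mulVec_sum, Finset.sum_apply]
  have t2 : ‖(TT M P *ᵥ h) a‖ ≤ 9 * (C₀ ^ 3 / c₀ ^ 2) * (V / Real.sqrt κv) := by
    have h1 : ∀ z ∈ R, ‖h z‖ ≤ V / c₀ * ((3 / 2 * C₀) ^ 2 / Real.sqrt κv) / c₀ * g z := by
      intro z hz
      have h2 := vdr_2 (fun c y => D c z y) (fun y => ‖G z y‖) (fun c y => ‖G c y‖) κ P
        (fun c y => (TT M P *ᵥ (D c *ᵥ ψ)) y) b U (3 / 2 * C₀) κv c₀ V hκ (by linarith) hκv hc₀
        hV (fun y => norm_nonneg _) (fun c y => norm_nonneg _) hP0 hPU (fun y hy => by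
          have e1 := hPg y hy
          have e2 := hg0 y (hUR hy)
          have e3 := mul_le_mul_of_nonneg_left e2 (hP0 y)
          linarith) hY.hv (hK z hz) (fun c hc => hK c (hUR (hbU hc)))
        (fun y hy => hgr y (hUR hy)) (fun c y => hD c z y)
      have e : h z = ∑ c ∈ b, ∑ y, D c z y * (((P y : ℝ) : 𝕜) * (TT M P *ᵥ (D c *ᵥ ψ)) y) := by
        show (∑ c ∈ b, D c *ᵥ (dg 𝕜 P *ᵥ (TT M P *ᵥ (D c *ᵥ ψ)))) z = _
        rw [Finset.sum_apply]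
        refine Finset.sum_congr rfl fun c _ => ?_
        show ∑ y, D c z y * (dg 𝕜 P *ᵥ (TT M P *ᵥ (D c *ᵥ ψ))) y = _
        refine Finset.sum_congr rfl fun y _ => ?_
        rw [dg, Matrix.mulVec_diagonal]
      rw [e]
      calc _ ≤ V / c₀ * ((3 / 2 * C₀) ^ 2 / Real.sqrt κv) := h2
        _ = V / c₀ * ((3 / 2 * C₀) ^ 2 / Real.sqrt κv) / c₀ * c₀ := by field_simp
        _ ≤ _ := mul_le_mul_of_nonneg_left (hg0 z hz) (by positivity)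
    have h3 := hT h _ (by positivity) h1 a ha
    calc ‖(TT M P *ᵥ h) a‖ ≤
          V / c₀ * ((3 / 2 * C₀) ^ 2 / Real.sqrt κv) / c₀ / (1 - 3 / 4) * g a := h3
      _ ≤ V / c₀ * ((3 / 2 * C₀) ^ 2 / Real.sqrt κv) / c₀ / (1 - 3 / 4) * C₀ := by
          refine mul_le_mul_of_nonneg_left hga ?_
          have : (0 : ℝ) < 1 - 3 / 4 := by norm_num
          positivity
      _ = 9 * (C₀ ^ 3 / c₀ ^ 2) * (V / Real.sqrt κv) := by field_simp; ring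
  rw [hh]
  exact (norm_add_le _ _).trans (add_le_add t1 t2)

theorem vdr : VdrStmt := by
  intro CMP VEX TSP VGR ENB c₀ C₀
  obtain ⟨C₁, hC₁, H1⟩ := VGR CMP VEX TSP c₀ C₀
  refine ⟨48 * |C₀ ^ 2 / c₀| + 9 * |C₀ ^ 3 / c₀ ^ 2| * Real.sqrt C₁ + 1, ?_, ?_⟩
  · have : 0 ≤ Real.sqrt C₁ := Real.sqrt_nonneg _
    have h1 := abs_nonneg (C₀ ^ 2 / c₀)
    have h2 := mul_nonneg (abs_nonneg (C₀ ^ 3 / c₀ ^ 2)) this
    nlinarith
  intro X _ _ G κ P w g μ b U R κv μs Λ hY a ha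
  obtain ⟨cB, cK, hψ, gB, gK⟩ := H1 X G κ P w g μ b U R κv μs Λ hY
  obtain ⟨hc₀, -, hC₀, hκv, -, hμs, hΛ⟩ := hY.hc
  obtain ⟨hbU, hUR⟩ := hY.hb
  obtain ⟨hμ1, hμ2⟩ := hY.hμ
  have hκ : ∀ x, 0 ≤ κ x := fun x => (hY.net.hκ x).le
  -- the rows of `G`
  have hW := (ENB X G κ (fun _ => 0) ∅ ∅ ∅ 1 1 0 0 hY.net one_pos one_pos le_rfl le_rfl
    (Finset.Subset.refl _) (by simp) (by simp) (by simp) (by simp) (by simp)).1
  have hK : ∀ x ∈ R, ∑ y, κ y * ‖G x y‖ ^ 2 ≤ 3 / 2 * C₀ := by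
    intro x hx
    have h1 : ∑ y, κ y * ‖G x y‖ ^ 2 = (G x x).im := hW x
    obtain ⟨-, h2, h3⟩ := hY.hg x hx
    rw [h1]
    linarith
  have hGD : ∀ z ∈ R, ∑ y, κ y * ‖GD G μ z y‖ ^ 2 ≤ (μs / κv) ^ 2 * (3 / 2 * C₀) := by
    intro z hz
    have h1 := (ENB X G κ μ b ∅ R κv 1 μs (3 / 2 * C₀) hY.net hκv one_pos hμs (by positivity)
      (Finset.empty_subset _) hY.hv (by simp) hμ1 hμ2 (fun x hx => by
        refine le_trans ?_ (hK x hx)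
        exact Finset.sum_le_sum_of_subset_of_nonneg (Finset.subset_univ _)
          fun c _ _ => mul_nonneg (hκ c) (sq_nonneg _))).2.2.1 z hz
    refine h1.trans (le_of_eq ?_)
    rw [div_pow]
    ring
  -- the constants
  set s : ℝ := Real.sqrt (Λ / κv) with hs
  have hs0 : 0 ≤ s := Real.sqrt_nonneg _
  have hV : (Real.sqrt C₁ * Real.sqrt s) ^ 2 = C₁ * s := by
    rw [mul_pow, Real.sq_sqrt (by linarith), Real.sq_sqrt hs0]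
  have hfin : 48 * (C₀ ^ 2 / c₀) * (μs / κv) +
      9 * (C₀ ^ 3 / c₀ ^ 2) * (Real.sqrt C₁ * Real.sqrt s / Real.sqrt κv) ≤
      (48 * |C₀ ^ 2 / c₀| + 9 * |C₀ ^ 3 / c₀ ^ 2| * Real.sqrt C₁ + 1) *
        (μs / κv + Real.sqrt s / Real.sqrt κv) := by
    have h1 : 0 ≤ μs / κv := div_nonneg hμs hκv.le
    have h2 : 0 ≤ Real.sqrt s / Real.sqrt κv := by positivity
    have h3 : 0 ≤ Real.sqrt C₁ := Real.sqrt_nonneg _
    have h4 := abs_nonneg (C₀ ^ 2 / c₀)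
    have h5 := abs_nonneg (C₀ ^ 3 / c₀ ^ 2)
    have h6 : 48 * (C₀ ^ 2 / c₀) * (μs / κv) ≤ 48 * |C₀ ^ 2 / c₀| * (μs / κv) :=
      mul_le_mul_of_nonneg_right (by linarith [le_abs_self (C₀ ^ 2 / c₀)]) h1
    have h7 : 9 * (C₀ ^ 3 / c₀ ^ 2) * (Real.sqrt C₁ * Real.sqrt s / Real.sqrt κv) ≤
        9 * |C₀ ^ 3 / c₀ ^ 2| * Real.sqrt C₁ * (Real.sqrt s / Real.sqrt κv) := by
      have e : 9 * |C₀ ^ 3 / c₀ ^ 2| * Real.sqrt C₁ * (Real.sqrt s / Real.sqrt κv) =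
        9 * |C₀ ^ 3 / c₀ ^ 2| * (Real.sqrt C₁ * Real.sqrt s / Real.sqrt κv) := by ring
      rw [e]
      refine mul_le_mul_of_nonneg_right ?_ (by positivity)
      linarith [le_abs_self (C₀ ^ 3 / c₀ ^ 2)]
    have h8 : 0 ≤ 48 * |C₀ ^ 2 / c₀| * (Real.sqrt s / Real.sqrt κv) := by positivity
    have h9 : 0 ≤ 9 * |C₀ ^ 3 / c₀ ^ 2| * Real.sqrt C₁ * (μs / κv) := by positivity
    linarith
  refine ⟨?_, ?_⟩
  · refine (vdr_core CMP VEX (BB G) (EB G μ) (dB G) G μ κ P w g b U R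
      (psi P w (vir (BB G) P w)) c₀ C₀ κv μs Λ (μs / κv) (Real.sqrt C₁ * Real.sqrt s) hY
      (div_nonneg hμs hκv.le) (by positivity) cB hK hGD ?_ ?_ (fun y => (hψ y).1) ?_ a ha).trans
      hfin
    · intro z y
      rw [EB, norm_mul, norm_mul, Complex.norm_ofNat]
      exact le_of_eq (by ring)
    · intro c z y
      rw [dB, norm_neg, norm_mul, norm_mul, norm_mul, Complex.norm_ofNat]
      exact le_of_eq (by ring)
    · intro x hx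
      rw [hV]
      exact gB x hx
  · refine (vdr_core CMP VEX (KK G) (EK G μ) (dK G) G μ κ P w g b U R
      (psi P w (vir (KK G) P w)) c₀ C₀ κv μs Λ (μs / κv) (Real.sqrt C₁ * Real.sqrt s) hY
      (div_nonneg hμs hκv.le) (by positivity) cK hK hGD ?_ ?_ (fun y => (hψ y).2) ?_ a ha).trans
      hfin
    · intro z y
      rw [EK, Real.norm_eq_abs, abs_mul, abs_two]
      refine mul_le_mul_of_nonneg_left ?_ (by norm_num)
      refine (Complex.abs_re_le_norm _).trans ?_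
      rw [norm_mul, RCLike.norm_conj]
    · intro c z y
      rw [dK, Real.norm_eq_abs, abs_neg, abs_mul, abs_two]
      refine mul_le_mul_of_nonneg_left ?_ (by norm_num)
      refine (Complex.abs_re_le_norm _).trans ?_
      rw [norm_mul, norm_mul, RCLike.norm_conj, mul_assoc]
    · intro x hx
      rw [hV]
      refine le_trans (le_of_eq ?_) (gK x hx)
      refine Finset.sum_congr rfl fun c _ => ?_
      rw [Real.norm_eq_abs, sq_abs]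

end Pool.Agent.ABY.H41
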